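import Pool.Agent.UL6.Stmts

/-!
Squad UL6 (MP_c7c9bf_co), row PNA (helper75): two more points of the body.
-/

set_option autoImplicit false

namespace Pool.Agent.UL6.H75

open MeasureTheory Set Pool.Agent.UL3 Pool.Agent.UL4 Pool.Agent.UL5 Pool.Agent.UL6

theorem neg_int {C : Set (ℝ × ℝ)} (hs : ∀ x ∈ C, -x ∈ C) {x : ℝ × ℝ} (hx : x ∈ interior C) :
    -x ∈ interior C := by
  have e : (Homeomorph.neg (ℝ × ℝ)) ⁻¹' C = C := by
    ext y
    constructor
    · intro hy
      have h1 : -y ∈ C := hy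
      have h2 := hs _ h1
      rwa [neg_neg] at h2
    · intro hy
      exact hs y hy
  have h := (Homeomorph.neg (ℝ × ℝ)).preimage_interior C
  rw [e] at h
  have h1 : x ∈ (Homeomorph.neg (ℝ × ℝ)) ⁻¹' interior C := by
    rw [h]
    exact hx
  exact h1

theorem zero_int {C : Set (ℝ × ℝ)} (hC : PB C) : (0 : ℝ × ℝ) ∈ interior C := by
  obtain ⟨x, hx⟩ := hC.int
  have h1 := neg_int hC.sym hx
  have h2 := hC.cvx.interior hx h1 (by norm_num : (0 : ℝ) ≤ 1 / 2) (by norm_num : (0 : ℝ) ≤ 1 / 2)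
    (by norm_num)
  have e : (1 / 2 : ℝ) • x + (1 / 2 : ℝ) • (-x) = 0 := by
    rw [smul_neg, add_neg_cancel]
  rwa [e] at h2

/-- the first claim -/
theorem core (C : Set (ℝ × ℝ)) (l : ℝ) (hc : Convex ℝ C) (hs : ∀ x ∈ C, -x ∈ C)
    (h0 : (0 : ℝ × ℝ) ∈ interior C) (h1 : 1 < l) (hn : ((1, 0) : ℝ × ℝ) ∉ interior C)
    (hA : ((-(l / 2), 1) : ℝ × ℝ) ∈ C) (hB : ((l / 2, 1) : ℝ × ℝ) ∈ C)
    (hh : ∀ p ∈ C, p + (l, 0) ∈ C → p.2 ≤ 1)
    (hu : ∀ u ∈ C, u ∉ interior C → ∃ p ∈ C, p + l • u ∈ C ∧ 1 ≤ cr u p) :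
    ∃ x y : ℝ, 0 ≤ y ∧ x ≤ l / 2 * y - 1 ∧ ((x + l ^ 2 / 2, y + l) : ℝ × ℝ) ∈ C := by
  have hBn : ((l / 2, 1) : ℝ × ℝ) ∉ interior C := by
    intro hB'
    obtain ⟨δ, hδ, hball⟩ := Metric.mem_nhds_iff.1 (mem_interior_iff_mem_nhds.1 hB')
    have hbox : ∀ x y : ℝ, |x - l / 2| ≤ δ / 2 → |y - 1| ≤ δ / 2 → ((x, y) : ℝ × ℝ) ∈ C := by
      intro x y hx hy
      apply hball
      rw [Metric.mem_ball, Prod.dist_eq, max_lt_iff, Real.dist_eq, Real.dist_eq]
      exact ⟨by show |x - l / 2| < δ; linarith, by show |y - 1| < δ; linarith⟩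
    obtain ⟨d, hd⟩ : ∃ d, d = δ / 2 := ⟨_, rfl⟩
    rw [← hd] at hbox
    have hd0 : 0 < d := by linarith
    have hld : 0 < l + d := by linarith
    obtain ⟨s, hsd⟩ : ∃ s, s = d / (l + d) := ⟨_, rfl⟩
    have hs0 : 0 < s := by rw [hsd]; positivity
    have hs1 : s < 1 := by
      rw [hsd, div_lt_one hld]
      linarith
    have hsl : l * s ≤ d := by
      have : s * (l + d) = d := by
        rw [hsd]
        field_simp
      nlinarith [mul_pos hs0 hd0]
    have hsd' : s * d ≤ d := by nlinarith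
    have hT : ((l / 2, 1 + d) : ℝ × ℝ) ∈ C := by
      apply hbox
      · rw [sub_self, abs_zero]
        exact hd0.le
      · rw [add_sub_cancel_left, abs_of_pos hd0]
    have ha : ((-(l / 2) + l * s, 1 + s * d) : ℝ × ℝ) ∈ C := by
      have h := hc hA hT (by linarith : 0 ≤ 1 - s) hs0.le (by ring)
      have e : (1 - s) • ((-(l / 2), 1) : ℝ × ℝ) + s • ((l / 2, 1 + d) : ℝ × ℝ) =
          (-(l / 2) + l * s, 1 + s * d) := by
        simp only [Prod.smul_mk, Prod.mk_add_mk, smul_eq_mul, Prod.mk.injEq]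
        constructor <;> ring
      rwa [e] at h
    have hb : ((-(l / 2) + l * s, 1 + s * d) : ℝ × ℝ) + (l, 0) ∈ C := by
      have e : ((-(l / 2) + l * s, 1 + s * d) : ℝ × ℝ) + (l, 0) = (l / 2 + l * s, 1 + s * d) := by
        simp only [Prod.mk_add_mk, Prod.mk.injEq]
        constructor <;> ring
      rw [e]
      have hls : 0 ≤ l * s := by positivity
      have hsd0 : 0 ≤ s * d := by positivity
      apply hbox
      · rw [add_sub_cancel_left, abs_of_nonneg hls]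
        exact hsl
      · rw [add_sub_cancel_left, abs_of_nonneg hsd0]
        exact hsd'
    have h := hh _ ha hb
    have h' : 1 + s * d ≤ 1 := h
    have : 0 < s * d := mul_pos hs0 hd0
    linarith
  obtain ⟨p, hp, hp2, hcr⟩ := hu _ hB hBn
  obtain ⟨x, y⟩ := p
  have hcr' : 1 ≤ l / 2 * y - 1 * x := hcr
  refine ⟨x, y, ?_, by linarith, ?_⟩
  · by_contra hy
    have hy' : y < 0 := not_le.1 hy
    have hm : ((-x, -y) : ℝ × ℝ) ∈ C := hs _ hp
    have hmA : ((l / 2, -1) : ℝ × ℝ) ∈ C := by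
      have := hs _ hA
      have e : -((-(l / 2), 1) : ℝ × ℝ) = (l / 2, -1) := by
        simp only [Prod.neg_mk, neg_neg]
      rwa [e] at this
    have hY : 0 < 1 - y := by linarith
    obtain ⟨x1, hx1⟩ : ∃ x1, x1 = (-x + l / 2 * (-y)) / (1 - y) := ⟨_, rfl⟩
    have hx1C : ((x1, 0) : ℝ × ℝ) ∈ C := by
      have h := hc hm hmA (by positivity : 0 ≤ 1 / (1 - y))
        (div_nonneg (by linarith) hY.le : 0 ≤ (-y) / (1 - y)) (by field_simp; ring)
      have e : (1 / (1 - y)) • ((-x, -y) : ℝ × ℝ) + ((-y) / (1 - y)) • ((l / 2, -1) : ℝ × ℝ) =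
          (x1, 0) := by
        simp only [Prod.smul_mk, Prod.mk_add_mk, smul_eq_mul, Prod.mk.injEq]
        constructor
        · rw [hx1]
          ring
        · ring
      rwa [e] at h
    have hx1g : 1 < x1 := by
      rw [hx1, lt_div_iff₀ hY]
      nlinarith [mul_pos (neg_pos.2 hy') (sub_pos.2 h1)]
    apply hn
    have hx0 : 0 < x1 := by linarith
    have h := hc.combo_interior_self_mem_interior h0 hx1C (a := 1 - 1 / x1) (b := 1 / x1)
      (by rw [sub_pos, div_lt_one hx0]; exact hx1g) (by positivity) (by ring)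
    have e : (1 - 1 / x1) • (0 : ℝ × ℝ) + (1 / x1) • ((x1, 0) : ℝ × ℝ) = (1, 0) := by
      rw [smul_zero, zero_add]
      simp only [Prod.smul_mk, smul_eq_mul, mul_zero, Prod.mk.injEq, and_true]
      field_simp
    rwa [e] at h
  · have e : ((x, y) : ℝ × ℝ) + l • ((l / 2, 1) : ℝ × ℝ) = (x + l ^ 2 / 2, y + l) := by
      simp only [Prod.smul_mk, Prod.mk_add_mk, smul_eq_mul, Prod.mk.injEq]
      constructor <;> ring
    rwa [e] at hp2

/-- the reflection -/
noncomputable def rf : (ℝ × ℝ) ≃L[ℝ] (ℝ × ℝ) :=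
  (ContinuousLinearEquiv.neg ℝ).prodCongr (ContinuousLinearEquiv.refl ℝ ℝ)

theorem rf_apply (q : ℝ × ℝ) : rf q = (-q.1, q.2) := rfl

/-- **PNA** -/
theorem pna : PnaStmt := by
  intro C l hC h1 h2 h10 hn hA hB hh hu
  have h0 := zero_int hC
  refine ⟨core C l hC.cvx hC.sym h0 h1 hn hA hB hh hu, ?_⟩
  have hint : interior (rf ⁻¹' C) = rf ⁻¹' interior C :=
    (rf.toHomeomorph.preimage_interior C).symm
  have hrr : ∀ q, rf (rf q) = q := by
    intro q
    rw [rf_apply, rf_apply, neg_neg]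
  obtain ⟨x, y, hy, hx, hxy⟩ := core (rf ⁻¹' C) l (hC.cvx.linear_preimage rf.toLinearMap)
    (fun q hq => by
      have : rf (-q) = -rf q := map_neg rf q
      show rf (-q) ∈ C
      rw [this]
      exact hC.sym _ hq)
    (by
      rw [hint]
      show rf 0 ∈ interior C
      rw [map_zero]
      exact h0)
    h1
    (by
      rw [hint]
      intro h
      have h3 : rf (1, 0) ∈ interior C := h
      rw [rf_apply] at h3
      have h4 := neg_int hC.sym h3
      have e : -((-((1, 0) : ℝ × ℝ).1, ((1, 0) : ℝ × ℝ).2) : ℝ × ℝ) = (1, 0) := by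
        simp
      rw [e] at h4
      exact hn h4)
    (by
      show rf (-(l / 2), 1) ∈ C
      rw [rf_apply]
      show ((- -(l / 2), 1) : ℝ × ℝ) ∈ C
      rw [neg_neg]
      exact hB)
    (by
      show rf (l / 2, 1) ∈ C
      rw [rf_apply]
      exact hA)
    (by
      rintro ⟨q1, q2⟩ hq hq2
      have h3 : ((-q1, q2) : ℝ × ℝ) ∈ C := hq
      have h4 : ((-(q1 + l), q2 + 0) : ℝ × ℝ) ∈ C := hq2
      have h5 := hh _ h4 (by
        have e : ((-(q1 + l), q2 + 0) : ℝ × ℝ) + (l, 0) = (-q1, q2) := by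
          simp only [Prod.mk_add_mk, Prod.mk.injEq]
          constructor <;> ring
        rw [e]
        exact h3)
      have h6 : q2 + 0 ≤ 1 := h5
      show q2 ≤ 1
      linarith)
    (by
      intro u hu1 hu2
      rw [hint] at hu2
      obtain ⟨p, hp, hp2, hcr⟩ := hu (rf u) hu1 hu2
      refine ⟨rf (-(p + l • rf u)), ?_, ?_, ?_⟩
      · show rf (rf (-(p + l • rf u))) ∈ C
        rw [hrr]
        exact hC.sym _ hp2
      · show rf (rf (-(p + l • rf u)) + l • u) ∈ C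
        rw [map_add, hrr, map_smul]
        have e : -(p + l • rf u) + l • rf u = -p := by abel
        rw [e]
        exact hC.sym _ hp
      · obtain ⟨u1, u2⟩ := u
        obtain ⟨p1, p2⟩ := p
        have hcr' : 1 ≤ (-u1) * p2 - u2 * p1 := hcr
        show 1 ≤ u1 * (-(p2 + l * u2)) - u2 * (- -(p1 + l * (-u1)))
        nlinarith)
  refine ⟨-x, y, hy, by linarith, ?_⟩
  have h3 : ((-(x + l ^ 2 / 2), y + l) : ℝ × ℝ) ∈ C := hxy
  have e : ((-x - l ^ 2 / 2, y + l) : ℝ × ℝ) = (-(x + l ^ 2 / 2), y + l) := by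
    simp only [Prod.mk.injEq, and_true]
    ring
  rw [e]
  exact h3

end Pool.Agent.UL6.H75
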